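import Pool.Agent.X95T.E

/-!
An effective polynomial bound for the integer points on the plane curves with exactly one place at
infinity, rational, that touch a line to an order divisible by `n` at each common point.
-/

set_option autoImplicit false

open IntermediateField

namespace Pool.Agent.Results.MP_821da1_nt.TangentLine

/-- Let `n ≥ 2`, `k, δ ≥ 1`, `gcd(k, n) = 1`. There is a constant `C` depending only on `n, k, δ`
such that the following holds for all `F ∈ ℤ[x, y]` with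
(1) `F = y ^ k - x ^ (n δ) +` terms `x ^ i y ^ j` with `k i + n δ j < n δ k`;
(2) `F(x, 0) = -D(x) ^ n` with `D ∈ ℤ[x]`;
(3) `b ∈ ℤ` lies in the ideal of `ℤ[x]` generated by `D(x)` and `F_y(x, 0)`;
(4) `F(x, z ^ n)` and `F(x, -z ^ n)` are irreducible over `ℚ`.
Every integer point `(x, y)` on `F = 0` with `gcd(y, b) = 1` has
`max(|x|, |y|) ≤ (C len F) ^ C`, `len F` the sum of the absolute values of the coefficients. -/
theorem result (n k δ : ℕ) (hn : 2 ≤ n) (hk : 1 ≤ k) (hδ : 1 ≤ δ) (hkn : Nat.Coprime k n) :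
    ∃ C : ℕ, ∀ (F : MvPolynomial (Fin 2) ℤ) (D U V : Polynomial ℤ) (b : ℤ),
      (∀ s ∈ (F - MvPolynomial.X 1 ^ k + MvPolynomial.X 0 ^ (n * δ)).support,
        k * s 0 + (n * δ) * s 1 < (n * δ) * k) →
      MvPolynomial.aeval ![Polynomial.X, (0 : Polynomial ℤ)] F = - D ^ n →
      U * D + V * MvPolynomial.aeval ![Polynomial.X, (0 : Polynomial ℤ)]
        (MvPolynomial.pderiv 1 F) = Polynomial.C b →
      Irreducible (MvPolynomial.map (Int.castRingHom ℚ)
        (MvPolynomial.aeval ![MvPolynomial.X 0, MvPolynomial.X 1 ^ n] F :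
          MvPolynomial (Fin 2) ℤ)) →
      Irreducible (MvPolynomial.map (Int.castRingHom ℚ)
        (MvPolynomial.aeval ![MvPolynomial.X 0, - MvPolynomial.X 1 ^ n] F :
          MvPolynomial (Fin 2) ℤ)) →
      ∀ x y : ℤ, MvPolynomial.eval ![x, y] F = 0 → IsCoprime y b →
        max x.natAbs y.natAbs ≤ (C * ∑ m ∈ F.support, (F.coeff m).natAbs) ^ C := by
  obtain ⟨C₀, c, hR⟩ := RepulsionAllCurves.result.2
  obtain ⟨K, hK⟩ : ∃ K : ℕ, K = C₀ (n * δ + n * k) * n + C₀ (n * δ + n * k) + 1 := ⟨_, rfl⟩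
  refine ⟨K, ?_⟩
  intro F D U V b hF h1 h2 hi1 hi2 x y h0 hb
  have hlenF : RepulsionAllCurves.len F = ∑ m ∈ F.support, (F.coeff m).natAbs := rfl
  rw [← hlenF]
  obtain ⟨e, u, v, w, h3, h4⟩ := Pool.Agent.X95T.split F D U V b h1 h2 x y h0
  obtain ⟨z, hz⟩ := Pool.Agent.X95T.pow_of_coprime y e _ u v w b h3 h4 hb
  obtain ⟨ε, hε, hyz⟩ : ∃ ε : ℤ, (ε = 1 ∨ ε = -1) ∧ y = ε * z ^ n := by
    rcases hz with h | h
    · exact ⟨1, Or.inl rfl, by rw [h, one_mul]⟩
    · exact ⟨-1, Or.inr rfl, by rw [h]; ring⟩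
  have hε0 : ε ≠ 0 := by rcases hε with h | h <;> rw [h] <;> norm_num
  have hirr : Irreducible (MvPolynomial.map (Int.castRingHom ℚ) (Pool.Agent.X95T.sub ε n F)) := by
    rcases hε with rfl | rfl
    · rw [Pool.Agent.X95T.sub, map_one, one_mul]
      exact hi1
    · rw [Pool.Agent.X95T.sub, map_neg, map_one, neg_one_mul]
      exact hi2
  have hsupp := Pool.Agent.X95T.supp F hF
  have hlen : RepulsionAllCurves.len (Pool.Agent.X95T.sub ε n F) ≤ RepulsionAllCurves.len F := by
    have h5 := Pool.Agent.X95T.len_sub ε hε0 n k F (fun s hs => (hsupp s hs).2)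
    have h6 : ε.natAbs = 1 := by rcases hε with h | h <;> rw [h] <;> rfl
    rwa [h6, one_pow, one_mul] at h5
  have hdeg := Pool.Agent.X95T.deg_sub ε n k (n * δ) F hsupp
  have hev : MvPolynomial.eval ![x, z] (Pool.Agent.X95T.sub ε n F) = 0 := by
    have h5 := Pool.Agent.X95T.aeval_sub ε n F x z
    rw [MvPolynomial.aeval_eq_eval, MvPolynomial.aeval_eq_eval] at h5
    rw [h5]
    simp only [Int.cast_id]
    rw [← hyz]
    exact h0
  have hmain : max x.natAbs z.natAbs ≤ (C₀ (n * δ + n * k) *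
      RepulsionAllCurves.len (Pool.Agent.X95T.sub ε n F)) ^ C₀ (n * δ + n * k) := by
    rcases hR (n * δ + n * k) _ x z hdeg hirr hev with h | ⟨g, hg, η, hη, -⟩
    · exact h
    · exfalso
      obtain ⟨θ, hθ, -, hθq⟩ := Pool.Agent.X95T.key hn hk hδ hkn ε hε0 F hF hirr g hg η hη
      have h5 : |θ| ^ n = 1 := by
        rw [← abs_pow, hθ, abs_pow]
        rcases hε with h | h <;> rw [h] <;> simp
      have h6 : |θ| = 1 := (pow_eq_one_iff_of_nonneg (abs_nonneg _) (by omega)).1 h5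
      rcases abs_eq (zero_le_one' ℝ) |>.1 h6 with h | h
      · exact hθq 1 (by rw [h]; simp)
      · exact hθq (-1) (by rw [h]; simp)
  have hF0 : F ≠ 0 := by
    rintro rfl
    rw [map_zero, map_zero] at hi1
    exact hi1.ne_zero rfl
  have hlen1 : 1 ≤ RepulsionAllCurves.len F := Pool.Agent.Y910.G.len_pos hF0
  obtain ⟨A, hA⟩ : ∃ A, A = C₀ (n * δ + n * k) := ⟨_, rfl⟩
  rw [← hA] at hmain hK
  have h5 : max x.natAbs z.natAbs ≤ (K * RepulsionAllCurves.len F) ^ A := by
    refine hmain.trans (Nat.pow_le_pow_left ?_ _)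
    apply Nat.mul_le_mul _ hlen
    rw [hK]
    have := Nat.zero_le (A * n)
    omega
  have h6 : 1 ≤ K * RepulsionAllCurves.len F := Nat.mul_pos (by omega) hlen1
  have h7 : A ≤ K := by
    rw [hK]
    have := Nat.zero_le (A * n)
    omega
  have h8 : A * n ≤ K := by
    rw [hK]
    omega
  apply max_le
  · exact ((le_max_left _ _).trans h5).trans (Nat.pow_le_pow_right h6 h7)
  · have h9 : y.natAbs = z.natAbs ^ n := by
      rw [hyz, Int.natAbs_mul, Int.natAbs_pow]
      rcases hε with h | h <;> rw [h] <;> simp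
    rw [h9]
    calc z.natAbs ^ n ≤ ((K * RepulsionAllCurves.len F) ^ A) ^ n :=
          Nat.pow_le_pow_left ((le_max_right _ _).trans h5) _
      _ = (K * RepulsionAllCurves.len F) ^ (A * n) := by rw [← pow_mul]
      _ ≤ _ := Nat.pow_le_pow_right h6 h8

end Pool.Agent.Results.MP_821da1_nt.TangentLine
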