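import Pool.Agent.X95T.Y

/-!
Effective bounds for the integer points on infinite families of nonsingular curves with exactly one
place at infinity, rational, that touch a line to an order divisible by an odd `n` at each common
point.
-/

set_option autoImplicit false

open IntermediateField

namespace Pool.Agent.Results.MP_821da1_nt.TangentLineEffective

/-- `F ∈ ℤ[x, y]` has the following properties (`γ, b` nonzero integers):
(1) `F = γ y ^ k - x ^ (n δ) +` terms `x ^ i y ^ j` with `k i + n δ j < n δ k`;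
(2) the affine curve `F = 0` over `ℚ` is normal, that is, nonsingular;
(3) `F (x, 0) = - D(x) ^ n` for a `D ∈ ℤ[x]`;
(4) the ideal of `ℤ[x]` generated by `D(x)` and `F_y(x, 0)` contains `b`. -/
def Curve (n k δ : ℕ) (γ b : ℤ) (F : MvPolynomial (Fin 2) ℤ) : Prop :=
  γ ≠ 0 ∧ b ≠ 0 ∧
  (∀ s ∈ (F - MvPolynomial.C γ * MvPolynomial.X 1 ^ k + MvPolynomial.X 0 ^ (n * δ)).support,
    k * s 0 + (n * δ) * s 1 < (n * δ) * k) ∧
  IsIntegrallyClosed
    (MvPolynomial (Fin 2) ℚ ⧸ Ideal.span {MvPolynomial.map (Int.castRingHom ℚ) F}) ∧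
  ∃ D U V : Polynomial ℤ,
    MvPolynomial.aeval ![Polynomial.X, (0 : Polynomial ℤ)] F = - D ^ n ∧
    U * D + V * MvPolynomial.aeval ![Polynomial.X, (0 : Polynomial ℤ)]
      (MvPolynomial.pderiv 1 F) = Polynomial.C b

/-- `N > 0` is the value at the integer `A ≥ (2 len P) ^ C` of a monic `P ∈ ℤ[T]` of degree `r` that
has an irreducible factor of multiplicity one, `len P` the sum of the absolute values of the
coefficients. For instance `N = A ^ r + s` with `s ≠ 0`, `A ≥ (2 (1 + |s|)) ^ C`. -/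
def Value (C r A : ℕ) (N : ℤ) : Prop :=
  0 < N ∧ ∃ P g : Polynomial ℤ, P.Monic ∧ P.natDegree = r ∧ Irreducible g ∧ g ∣ P ∧ ¬ g ^ 2 ∣ P ∧
    (2 * ∑ i ∈ P.support, (P.coeff i).natAbs) ^ C ≤ A ∧ P.eval (A : ℤ) = N

/-- Let `n ≥ 3` be odd, `k ≥ 2`, `δ, m ≥ 1`, `gcd(k, n δ) = 1`. There is a constant `C` depending
only on `n, k, δ, m` such that the following holds. Let `Q B ^ n` (`Q, B ∈ ℕ`) be a value as in
`Value C (n m) A (Q B ^ n)`, and let `γ = ± Q ^ l`, `b = ± Q ^ i`, where `i = 0` or `Q` is prime.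
For every `F` as in `Curve n k δ γ b F` all integer points `(x, y)` of `F = 0` have
`max(|x|, |y|) ≤ (A len F) ^ C`, `len F` the sum of the absolute values of the coefficients. -/
theorem result (n k δ m : ℕ) (hn : 3 ≤ n) (hodd : Odd n) (hk : 2 ≤ k) (hδ : 1 ≤ δ) (hm : 1 ≤ m)
    (hkn : Nat.Coprime k (n * δ)) :
    ∃ C : ℕ, ∀ (A B Q i l : ℕ) (γ b : ℤ) (F : MvPolynomial (Fin 2) ℤ),
      Value C (n * m) A (Q * B ^ n) → (i = 0 ∨ Q.Prime) → γ.natAbs = Q ^ l → b.natAbs = Q ^ i →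
      Curve n k δ γ b F → ∀ x y : ℤ, MvPolynomial.eval ![x, y] F = 0 →
        max x.natAbs y.natAbs ≤ (A * ∑ s ∈ F.support, (F.coeff s).natAbs) ^ C := by
  have hr : 1 ≤ n * m := Nat.mul_pos (by omega) hm
  have hN : 1 ≤ n * δ := Nat.mul_pos (by omega) hδ
  obtain ⟨C, hC⟩ := Pool.Agent.X95T.effective n k δ (n * m) hn hodd (by omega) hδ hr
    (Nat.Coprime.coprime_mul_right_right hkn)
  refine ⟨(n * m + 2) * C + 1, ?_⟩
  intro A B Q i l γ b F hV hQ hγQ hbQ hcurve x y h0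
  obtain ⟨hN0, P, g₀, hP, hPd, hg₀, hg₀P, hg₀2, hA, hPA⟩ := hV
  obtain ⟨hγ, hb, hF, hnorm, D, U, V, h1, h2⟩ := hcurve
  obtain ⟨Λ, hΛ⟩ : ∃ Λ : ℕ, Λ = ∑ s ∈ F.support, (F.coeff s).natAbs := ⟨_, rfl⟩
  obtain ⟨lP, hlP⟩ : ∃ lP : ℕ, lP = ∑ i ∈ P.support, (P.coeff i).natAbs := ⟨_, rfl⟩
  have hlP1 : 1 ≤ lP := by
    have h3 : P.natDegree ∈ P.support := by
      rw [Polynomial.mem_support_iff, Polynomial.coeff_natDegree, hP.leadingCoeff]
      exact one_ne_zero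
    have h4 : (P.coeff P.natDegree).natAbs ≤ ∑ i ∈ P.support, (P.coeff i).natAbs :=
      Finset.single_le_sum (f := fun i => (P.coeff i).natAbs) (fun _ _ => Nat.zero_le _) h3
    rw [Polynomial.coeff_natDegree, hP.leadingCoeff, ← hlP] at h4
    simpa using h4
  have hA1 : 1 ≤ A := (Nat.one_le_pow _ _ (by omega)).trans hA
  have hAl : lP ≤ A := by
    rw [← hlP] at hA
    calc lP ≤ 2 * lP := by omega
      _ = (2 * lP) ^ 1 := (pow_one _).symm
      _ ≤ (2 * lP) ^ ((n * m + 2) * C + 1) := Nat.pow_le_pow_right (by omega) (by omega)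
      _ ≤ A := hA
  have hAC : (2 * ∑ i ∈ P.support, (P.coeff i).natAbs) ^ C ≤ A := by
    refine (Nat.pow_le_pow_right (by omega) ?_).trans hA
    calc C = 1 * C := (one_mul _).symm
      _ ≤ (n * m + 2) * C := Nat.mul_le_mul_right _ (by omega)
      _ ≤ _ := Nat.le_succ _
  -- the size of `Q`
  have hB0 : B ≠ 0 := by
    rintro rfl
    rw [Nat.cast_zero, zero_pow (by omega), mul_zero] at hN0
    exact lt_irrefl _ hN0
  have hQ0 : 1 ≤ Q := by
    by_contra h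
    have : Q = 0 := by omega
    rw [this, Nat.cast_zero, zero_mul] at hN0
    exact lt_irrefl _ hN0
  have hQA : Q ≤ A ^ (n * m + 1) := by
    have h3 := Pool.Agent.X95T.eval_le P A hA1
    rw [hPA, hPd, ← hlP] at h3
    have h4 : ((Q : ℤ) * (B : ℤ) ^ n).natAbs = Q * B ^ n := by
      rw [Int.natAbs_mul, Int.natAbs_pow, Int.natAbs_natCast, Int.natAbs_natCast]
    rw [h4] at h3
    calc Q ≤ Q * B ^ n := Nat.le_mul_of_pos_right _ (pow_pos (Nat.pos_of_ne_zero hB0) _)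
      _ ≤ lP * A ^ (n * m) := h3
      _ ≤ A * A ^ (n * m) := Nat.mul_le_mul_right _ hAl
      _ = A ^ (n * m + 1) := by rw [pow_succ]; ring
  obtain ⟨μ, hμ0, hμ1, ν, hν, hνn⟩ := Pool.Agent.X95T.ex_real (n := n) (by omega) hm B Q _ hN0 rfl
  have hmain := hC P g₀ A μ hP hPd hg₀ hg₀P hg₀2 hAC hμ0 (by rw [hμ1, hPA]) γ b F D U V hγ hb hF h1
    h2 (fun a ha hap => ⟨Pool.Agent.X95T.irr_subG hodd hk hN hkn γ hγ F hF hnorm a ha,
      fun θ hθ => Pool.Agent.X95T.pow_Q hodd Q i l hQ γ b a hγQ hbQ ha hap μ ν hν hνn θ hθ⟩) x y h0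
  have hrad := Pool.Agent.X95T.rad_le Q i hQ0 hQ b hbQ
  have hΛ1 : 1 ≤ Λ := by
    rw [hΛ]
    apply Pool.Agent.Y910.G.len_pos (F := F)
    rintro rfl
    have h5 := Pool.Agent.X95T.irrFG (by omega) hN hkn γ hγ 0 hF
    rw [map_zero] at h5
    exact h5.ne_zero rfl
  rw [← hΛ] at hmain ⊢
  have hAΛ : 1 ≤ A * Λ := Nat.mul_pos hA1 hΛ1
  calc max x.natAbs y.natAbs ≤ (A * (∏ q ∈ b.natAbs.primeFactors, q) * Λ) ^ C := hmain
    _ ≤ ((A * Λ) ^ (n * m + 2)) ^ C := by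
        apply Nat.pow_le_pow_left
        calc A * (∏ q ∈ b.natAbs.primeFactors, q) * Λ ≤ A * A ^ (n * m + 1) * Λ :=
              Nat.mul_le_mul_right _ (Nat.mul_le_mul_left _ (hrad.trans hQA))
          _ = A ^ (n * m + 2) * Λ := by rw [pow_succ A (n * m + 1), mul_comm A]
          _ ≤ A ^ (n * m + 2) * Λ ^ (n * m + 2) := by
              apply Nat.mul_le_mul_left
              calc Λ = Λ ^ 1 := (pow_one _).symm
                _ ≤ Λ ^ (n * m + 2) := Nat.pow_le_pow_right hΛ1 (by omega)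
          _ = (A * Λ) ^ (n * m + 2) := (mul_pow _ _ _).symm
    _ = (A * Λ) ^ ((n * m + 2) * C) := (pow_mul _ _ _).symm
    _ ≤ _ := Nat.pow_le_pow_right hAΛ (Nat.le_succ _)

end Pool.Agent.Results.MP_821da1_nt.TangentLineEffective
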