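import Pool.Agent.X95T.N

/-!
Integer points on the plane curves with exactly one place at infinity, of degree two, that touch a
line to an order divisible by `n` at each common point: one constant for all the curves with a given
leading form whose bad primes belong to a given finite set.
-/

set_option autoImplicit false

open IntermediateField

namespace Pool.Agent.Results.MP_821da1_nt.TangentLineQuadratic

/-- Let `n ≥ 2`, `k, δ ≥ 1`, `gcd(k, n) = 1`. There is a `C` depending only on `n, k, δ`, and for all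
`α, β ∈ ℤ` such that `α ^ 2 - 4 β` is not a square and all finite sets `S` of primes there is a `c`
such that the following holds for all `F ∈ ℤ[x, y]` with
(1) `F = y ^ (2 k) + α y ^ k x ^ (n δ) + β x ^ (2 n δ) +` terms `x ^ i y ^ j` with
`k i + n δ j < 2 n δ k`;
(2) `F(x, 0) = e D(x) ^ n` with `D ∈ ℤ[x]`, `e ∈ ℤ`;
(3) the ideal of `ℤ[x]` generated by `D(x)` and `F_y(x, 0)` contains an integer `b`, and
`b e ≠ 0` has all its prime factors in `S`;
(4) `F(x, a z ^ n)` is irreducible over `ℚ` for all integers `a ≠ 0`.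
Every integer point `(x, y)` on `F = 0` has `max(|x|, |y|) ≤ (c len F) ^ C`, `len F` the sum of the
absolute values of the coefficients. -/
theorem result (n k δ : ℕ) (hn : 2 ≤ n) (hk : 1 ≤ k) (hδ : 1 ≤ δ) (hkn : Nat.Coprime k n) :
    ∃ C : ℕ, ∀ α β : ℤ, ¬ IsSquare (α ^ 2 - 4 * β) → ∀ S : Finset ℕ, ∃ c : ℕ,
      ∀ (F : MvPolynomial (Fin 2) ℤ) (D U V : Polynomial ℤ) (e b : ℤ),
      (∀ s ∈ (F - MvPolynomial.X 1 ^ (2 * k) -
          MvPolynomial.C α * MvPolynomial.X 1 ^ k * MvPolynomial.X 0 ^ (n * δ) -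
          MvPolynomial.C β * MvPolynomial.X 0 ^ (2 * (n * δ))).support,
        k * s 0 + (n * δ) * s 1 < 2 * (n * δ) * k) →
      MvPolynomial.aeval ![Polynomial.X, (0 : Polynomial ℤ)] F = Polynomial.C e * D ^ n →
      U * D + V * MvPolynomial.aeval ![Polynomial.X, (0 : Polynomial ℤ)]
        (MvPolynomial.pderiv 1 F) = Polynomial.C b →
      b * e ≠ 0 → (∀ q : ℕ, q.Prime → (q : ℤ) ∣ b * e → q ∈ S) →
      (∀ a : ℤ, a ≠ 0 → Irreducible (MvPolynomial.map (Int.castRingHom ℚ)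
        (MvPolynomial.aeval ![MvPolynomial.X 0, MvPolynomial.C a * MvPolynomial.X 1 ^ n] F :
          MvPolynomial (Fin 2) ℤ))) →
      ∀ x y : ℤ, MvPolynomial.eval ![x, y] F = 0 →
        max x.natAbs y.natAbs ≤ (c * ∑ m ∈ F.support, (F.coeff m).natAbs) ^ C := by
  obtain ⟨C₀, c₀, hR⟩ := RepulsionAllCurves.result.2
  obtain ⟨d, hd⟩ : ∃ d : ℕ, d = 2 * (n * δ) + n * (2 * k) := ⟨_, rfl⟩
  obtain ⟨A, hA⟩ : ∃ A : ℕ, A = C₀ d := ⟨_, rfl⟩
  refine ⟨A * n + A + 1, ?_⟩
  intro α β hαβ S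
  have hαβq : ∀ q : ℚ, q ^ 2 + α * q + β ≠ 0 := by
    intro q hq
    apply hαβ
    rw [← Rat.isSquare_intCast_iff]
    refine ⟨2 * q + α, ?_⟩
    push_cast
    linear_combination (-4 : ℚ) * hq
  have hβ0 : β ≠ 0 := by
    rintro rfl
    exact hαβq 0 (by simp)
  -- the constants of the fields
  have hca := Pool.Agent.X95T.const_a n k α β hβ0 (by omega) (fun θ => c₀ d ℚ⟮θ⟯)
  choose t ht using hca
  obtain ⟨M, hM⟩ : ∃ M : ℕ, M = ∏ q ∈ S, (q + 1) ^ n := ⟨_, rfl⟩
  have hM1 : 1 ≤ M := by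
    rw [hM]
    exact Nat.succ_le_of_lt (Finset.prod_pos (fun q _ => pow_pos (Nat.succ_pos q) n))
  obtain ⟨T, hT⟩ : ∃ T : ℕ, T = A + ∑ a ∈ Finset.Icc (-(M : ℤ)) M, t a := ⟨_, rfl⟩
  have hT1 : ∀ a : ℤ, a.natAbs ≤ M → t a ≤ T := by
    intro a ha
    rw [hT]
    refine le_trans ?_ (Nat.le_add_left _ _)
    apply Finset.single_le_sum (f := t) (fun _ _ => Nat.zero_le _)
    rw [Finset.mem_Icc]
    omega
  refine ⟨M * ((T + 1) * M ^ (2 * k)), ?_⟩
  intro F D U V e b hF h1 h2 hb hbS hi x y h0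
  have hlenF : RepulsionAllCurves.len F = ∑ m ∈ F.support, (F.coeff m).natAbs := rfl
  rw [← hlenF]
  obtain ⟨f, u, v, w, h3, h4⟩ := Pool.Agent.X95T.split' F D U V e b h1 h2 x y h0
  obtain ⟨a, z, ha0, haM, hyz⟩ : ∃ a z : ℤ, a ≠ 0 ∧ a.natAbs ≤ M ∧ y = a * z ^ n := by
    by_cases hy : y = 0
    · refine ⟨1, 0, one_ne_zero, hM1, ?_⟩
      rw [hy, zero_pow (by omega), mul_zero]
    · rw [hM]
      apply Pool.Agent.X95T.free_part' (by omega) S y hy
      intro q hq hqS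
      exact Pool.Agent.X95T.val_dvd' y f e _ u v w b h3 h4 hy q hq
        (fun h => hqS (hbS q hq (h.mul_right e))) (fun h => hqS (hbS q hq (h.mul_left b)))
  have hirr : Irreducible (MvPolynomial.map (Int.castRingHom ℚ) (Pool.Agent.X95T.sub a n F)) :=
    hi a ha0
  have hN : 1 ≤ n * δ := Nat.mul_pos (by omega) hδ
  have hsupp := (Pool.Agent.X95T.supp2 hN hk α β F hF).2
  have hF0 : F ≠ 0 := by
    rintro rfl
    rw [map_zero, map_zero] at hirr
    exact hirr.ne_zero rfl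
  have hlen1 : 1 ≤ RepulsionAllCurves.len F := Pool.Agent.Y910.G.len_pos hF0
  have hlen : RepulsionAllCurves.len (Pool.Agent.X95T.sub a n F) ≤
      M ^ (2 * k) * RepulsionAllCurves.len F :=
    (Pool.Agent.X95T.len_sub a ha0 n (2 * k) F (fun s hs => (hsupp s hs).2)).trans
      (Nat.mul_le_mul_right _ (Nat.pow_le_pow_left haM _))
  have hdeg := Pool.Agent.X95T.deg_sub a n (2 * k) (2 * (n * δ)) F hsupp
  rw [← hd] at hdeg
  have hev : MvPolynomial.eval ![x, z] (Pool.Agent.X95T.sub a n F) = 0 := by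
    have h5 := Pool.Agent.X95T.aeval_sub a n F x z
    rw [MvPolynomial.aeval_eq_eval, MvPolynomial.aeval_eq_eval] at h5
    rw [h5]
    simp only [Int.cast_id]
    rw [← hyz]
    exact h0
  have hmain : max x.natAbs z.natAbs ≤
      ((T + 1) * RepulsionAllCurves.len (Pool.Agent.X95T.sub a n F)) ^ A := by
    rcases hR d _ x z hdeg hirr hev with h | ⟨g, hg, η, hη, hk3⟩
    · rw [← hA] at h
      refine h.trans (Nat.pow_le_pow_left (Nat.mul_le_mul_right _ ?_) _)
      rw [hT]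
      omega
    · obtain ⟨θ, hθ, hθη, hθ3⟩ := Pool.Agent.X95T.key2 hn hk hδ hkn a ha0 α β hαβq F hF hirr g hg
        η hη
      have h5 := hk3 ℚ⟮θ⟯ (by rw [adjoin_simple_le_iff]; exact hθη) hθ3
      rw [← hA] at h5
      refine h5.trans (Nat.pow_le_pow_left (Nat.mul_le_mul_right _ ?_) _)
      exact (ht a θ hθ).trans ((hT1 a haM).trans (Nat.le_succ _))
  obtain ⟨B, hB⟩ : ∃ B : ℕ, B = (T + 1) * M ^ (2 * k) * RepulsionAllCurves.len F := ⟨_, rfl⟩
  have hB1 : 1 ≤ B := by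
    rw [hB]
    exact Nat.mul_pos (Nat.mul_pos (Nat.succ_pos _) (pow_pos hM1 _)) hlen1
  have h5 : max x.natAbs z.natAbs ≤ B ^ A := by
    refine hmain.trans (Nat.pow_le_pow_left ?_ _)
    rw [hB, mul_assoc]
    exact Nat.mul_le_mul_left _ hlen
  have h6 : M * ((T + 1) * M ^ (2 * k)) * RepulsionAllCurves.len F = M * B := by
    rw [hB, mul_assoc]
  rw [h6]
  have h7 : 1 ≤ M * B := Nat.mul_pos hM1 hB1
  have h8 : B ≤ M * B := Nat.le_mul_of_pos_left _ hM1
  apply max_le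
  · calc x.natAbs ≤ B ^ A := (le_max_left _ _).trans h5
      _ ≤ (M * B) ^ A := Nat.pow_le_pow_left h8 _
      _ ≤ _ := Nat.pow_le_pow_right h7 (by omega)
  · have h9 : y.natAbs = a.natAbs * z.natAbs ^ n := by
      rw [hyz, Int.natAbs_mul, Int.natAbs_pow]
    rw [h9]
    calc a.natAbs * z.natAbs ^ n ≤ M * (B ^ A) ^ n :=
          Nat.mul_le_mul haM (Nat.pow_le_pow_left ((le_max_right _ _).trans h5) _)
      _ ≤ M * (M * B) ^ (A * n) := by
          rw [← pow_mul]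
          exact Nat.mul_le_mul_left _ (Nat.pow_le_pow_left h8 _)
      _ ≤ (M * B) * (M * B) ^ (A * n) := Nat.mul_le_mul_right _ (Nat.le_mul_of_pos_right _ hB1)
      _ = (M * B) ^ (A * n + 1) := by rw [pow_succ]; ring
      _ ≤ _ := Nat.pow_le_pow_right h7 (by omega)

end Pool.Agent.Results.MP_821da1_nt.TangentLineQuadratic
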